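import Mathlib
import Pool.Agent.Lib.MP_be0804_ag.NMain

set_option autoImplicit false

open Polynomial

namespace Pool.Agent.Results.MP_be0804_ag.NeverN

/-- `l` is different from `0` and `1`, and the Hasse invariant of `y^2 = x(x-1)(x-l)`, the
coefficient of `x^(p-1)` in `(x(x-1)(x-l))^((p-1)/2)`, vanishes. -/
def IsSupersingularValue {k : Type} [Field k] (p : ℕ) (l : k) : Prop :=
  l ≠ 0 ∧ l ≠ 1 ∧ ((X * (X - 1) * (X - C l)) ^ ((p - 1) / 2)).coeff (p - 1) = 0

/-- The Cartier-Manin matrix of the genus two curve `y^2 = f(x)` in characteristic `p`: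
the entry `(i, j)`, for `i, j = 1, 2`, is the coefficient of `x^(i p - j)` in `f^((p-1)/2)`. -/
noncomputable def cartierManin {k : Type} [Field k] (p : ℕ) (f : k[X]) : Matrix (Fin 2) (Fin 2) k :=
  Matrix.of fun i j => (f ^ ((p - 1) / 2)).coeff ((i.val + 1) * p - (j.val + 1))

theorem result (p : ℕ) (hp : p.Prime) (h7 : 7 ≤ p) (k : Type) [Field k] [IsAlgClosed k]
    [CharP k p] (l₁ l₂ l₃ : k) (h₁₂ : l₁ ≠ l₂) (h₁₃ : l₁ ≠ l₃) (h₂₃ : l₂ ≠ l₃)
    (s₁ : IsSupersingularValue p l₁) (s₂ : IsSupersingularValue p l₂)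
    (s₃ : IsSupersingularValue p l₃) (A : Matrix (Fin 2) (Fin 2) k)
    (hA : A = cartierManin p (X * (X - 1) * (X - C l₁) * (X - C l₂) * (X - C l₃)))
    (h : A.map (fun a => a ^ p) * A = 0 ∨ A * A.map (fun a => a ^ p) = 0) : A = 0 := by
  classical
  have := Fact.mk hp
  obtain ⟨n, hn⟩ : ∃ n, p = 2 * n + 1 := (hp.eq_two_or_odd'.resolve_left (by omega))
  have e1 : (p - 1) / 2 = n := by omega
  obtain ⟨b0, b1, b⟩ := s₁
  obtain ⟨c0, c1, c⟩ := s₂
  obtain ⟨d0, d1, d⟩ := s₃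
  rw [e1] at b c d
  have fb := Pool.Agent.Lib.MP_be0804_ag.NN.ss_fixed hn b0 b1 b
  have fc := Pool.Agent.Lib.MP_be0804_ag.NN.ss_fixed hn c0 c1 c
  have fd := Pool.Agent.Lib.MP_be0804_ag.NN.ss_fixed hn d0 d1 d
  obtain ⟨f, hf⟩ : ∃ f : k[X], f = X * (X - 1) * (X - C l₁) * (X - C l₂) * (X - C l₃) := ⟨_, rfl⟩
  rw [← hf] at hA
  have hm : f.map (iterateFrobenius k p 2) = f := by
    simp [hf, iterateFrobenius_def, fb, fc, fd]
  have hc : ∀ a, ((f ^ n).coeff a ^ p) ^ p = (f ^ n).coeff a := fun a => by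
    conv_rhs => rw [← hm, ← Polynomial.map_pow, coeff_map, iterateFrobenius_def, sq, pow_mul]
  have hA' : ∀ i j : Fin 2, A i j = (f ^ n).coeff ((i.val + 1) * p - (j.val + 1)) := fun i j => by
    rw [hA, cartierManin, Matrix.of_apply, e1]
  have h' : A.map (fun a => a ^ p) * A = 0 := by
    refine h.elim id fun h => ?_
    ext i j
    have := congrArg (· ^ p) (congrFun (congrFun h i) j)
    simp only [Matrix.mul_apply, Fin.sum_univ_two, Matrix.map_apply, add_pow_char, mul_pow,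
      Matrix.zero_apply, zero_pow hp.ne_zero] at this ⊢
    rwa [hA' 0 j, hA' 1 j, hc, hc, ← hA', ← hA'] at this
  ext i j
  rw [hA', Matrix.zero_apply]
  refine Pool.Agent.Lib.MP_be0804_ag.NN.zero_closed hn (by omega) ![0, 1, l₁, l₂, l₃] ?_ ?_ rfl
    (by simp [hf, Fin.prod_univ_five]) (fun a b ha hb => ?_) _ _ i.2 j.2
  · intro a b hab
    fin_cases a <;> fin_cases b <;> first
      | rfl
      | exact absurd hab (by simp [b0, b1, c0, c1, d0, d1, h₁₂, h₁₃, h₂₃, b0.symm, b1.symm, c0.symm,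
          c1.symm, d0.symm, d1.symm, h₁₂.symm, h₁₃.symm, h₂₃.symm])
  · intro a
    fin_cases a <;> simp [hp.ne_zero, fb, fc, fd]
  · have := congrFun (congrFun h' ⟨a, ha⟩) ⟨b, hb⟩
    simpa only [Matrix.mul_apply, Fin.sum_univ_two, Matrix.map_apply, hA', Matrix.zero_apply,
      Fin.val_zero, Fin.val_one, zero_add, one_mul, one_add_one_eq_two] using this

end Pool.Agent.Results.MP_be0804_ag.NeverN
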