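import Mathlib
import Pool.Agent.Lib.MP_be0804_ag.All

set_option autoImplicit false

open Polynomial

namespace Pool.Agent.Results.MP_be0804_ag.OrdinaryCM

/-- `l` is different from `0` and `1`, and the Hasse invariant of `y^2 = x(x-1)(x-l)`, the
coefficient of `x^(p-1)` in `(x(x-1)(x-l))^((p-1)/2)`, vanishes. -/
def IsSupersingularValue {k : Type} [Field k] (p : ℕ) (l : k) : Prop :=
  l ≠ 0 ∧ l ≠ 1 ∧ ((X * (X - 1) * (X - C l)) ^ ((p - 1) / 2)).coeff (p - 1) = 0

/-- The Cartier-Manin matrix of the genus two curve `y^2 = f(x)` in characteristic `p`: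
the entry `(i, j)`, for `i, j = 1, 2`, is the coefficient of `x^(i p - j)` in `f^((p-1)/2)`. -/
noncomputable def cartierManin {k : Type} [Field k] (p : ℕ) (f : k[X]) : Matrix (Fin 2) (Fin 2) k :=
  Matrix.of fun i j => (f ^ ((p - 1) / 2)).coeff ((i.val + 1) * p - (j.val + 1))

theorem result (p : ℕ) (hp : p.Prime) (h7 : 7 ≤ p) (k : Type) [Field k] [IsAlgClosed k]
    [CharP k p] :
    ∃ l₁ l₂ l₃ : k, l₁ ≠ l₂ ∧ l₁ ≠ l₃ ∧ l₂ ≠ l₃ ∧
      IsSupersingularValue p l₁ ∧ IsSupersingularValue p l₂ ∧ IsSupersingularValue p l₃ ∧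
      (cartierManin p (X * (X - 1) * (X - C l₁) * (X - C l₂) * (X - C l₃))).det ≠ 0 := by
  obtain ⟨n, rfl⟩ : ∃ n, p = 2 * n + 1 := (hp.eq_two_or_odd'.resolve_left (by omega))
  obtain ⟨l1, l2, l3, a1, a2, a3, b, c, d, e⟩ :=
    Pool.Agent.Lib.MP_be0804_ag.main_all (k := k) n hp (by omega)
  have e1 : (2 * n + 1 - 1) / 2 = n := by omega
  have e2 : 2 * n + 1 - 1 = 2 * n := by omega
  refine ⟨l1, l2, l3, a1, a2, a3, ?_, ?_, ?_, ?_⟩
  · unfold IsSupersingularValue; rw [e1, e2]; exact b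
  · unfold IsSupersingularValue; rw [e1, e2]; exact c
  · unfold IsSupersingularValue; rw [e1, e2]; exact d
  · rw [Matrix.det_fin_two]
    simp only [cartierManin, Matrix.of_apply, e1, Fin.val_zero, Fin.val_one]
    rw [show (0 + 1) * (2 * n + 1) - (0 + 1) = 2 * n by omega,
      show (1 + 1) * (2 * n + 1) - (1 + 1) = 4 * n by omega,
      show (0 + 1) * (2 * n + 1) - (1 + 1) = 2 * n - 1 by omega,
      show (1 + 1) * (2 * n + 1) - (0 + 1) = 4 * n + 1 by omega]
    exact e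

end Pool.Agent.Results.MP_be0804_ag.OrdinaryCM
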