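import Mathlib
import Pool.Agent.Lib.MP_be0804_ag.PMain
import Pool.Agent.Results.MP_be0804_ag.NeverN
import Pool.Agent.Results.MP_be0804_ag.OrdinaryCM

set_option autoImplicit false

open Polynomial

namespace Pool.Agent.Results.MP_be0804_ag.Complete30

/-- `l` is different from `0` and `1`, and the Hasse invariant of `y^2 = x(x-1)(x-l)`, the
coefficient of `x^(p-1)` in `(x(x-1)(x-l))^((p-1)/2)`, vanishes. -/
def IsSupersingularValue {k : Type} [Field k] (p : ℕ) (l : k) : Prop :=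
  l ≠ 0 ∧ l ≠ 1 ∧ ((X * (X - 1) * (X - C l)) ^ ((p - 1) / 2)).coeff (p - 1) = 0

/-- The Cartier-Manin matrix of the genus two curve `y^2 = f(x)` in characteristic `p`:
the entry `(i, j)`, for `i, j = 1, 2`, is the coefficient of `x^(i p - j)` in `f^((p-1)/2)`. -/
noncomputable def cartierManin {k : Type} [Field k] (p : ℕ) (f : k[X]) : Matrix (Fin 2) (Fin 2) k :=
  Matrix.of fun i j => (f ^ ((p - 1) / 2)).coeff ((i.val + 1) * p - (j.val + 1))

/-- Names of the four group schemes `(Z/p ⊕ μ_p)^2`, `M ⊕ (Z/p ⊕ μ_p)`, `N`, `M^2`. -/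
inductive Kind : Type
  | ordinary
  | mixed
  | typeN
  | superspecial

open Classical in
/-- The kind read off the Cartier-Manin matrix `A`: `p`-rank two if `A` is invertible, otherwise
`p`-rank one if `A^(p) A ≠ 0`, otherwise `p`-rank zero, with `a`-number one if `A ≠ 0` and
`a`-number two if `A = 0`. -/
noncomputable def kind {k : Type} [Field k] (p : ℕ) (A : Matrix (Fin 2) (Fin 2) k) : Kind :=
  if A.det ≠ 0 then Kind.ordinary
  else if A.map (fun a => a ^ p) * A ≠ 0 then Kind.mixed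
  else if A ≠ 0 then Kind.typeN
  else Kind.superspecial

theorem result (p : ℕ) (hp : p.Prime)
    (h : p % 120 ∈ ({29, 41, 59, 71, 89, 101} : Set ℕ) ∨ (p % 120 ∈ ({11, 119} : Set ℕ) ∧
      ¬ (p : ℤ) ∣ ((X ^ 3 - 11 * X ^ 2 - X : ℤ[X]) ^ ((p - 1) / 2)).coeff (p - 1)))
    (k : Type) [Field k] [IsAlgClosed k] [CharP k p] :
    {T : Kind | ∃ l₁ l₂ l₃ : k, l₁ ≠ l₂ ∧ l₁ ≠ l₃ ∧ l₂ ≠ l₃ ∧
      IsSupersingularValue p l₁ ∧ IsSupersingularValue p l₂ ∧ IsSupersingularValue p l₃ ∧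
      T = kind p (cartierManin p (X * (X - 1) * (X - C l₁) * (X - C l₂) * (X - C l₃)))} =
    {Kind.ordinary, Kind.mixed, Kind.superspecial} := by
  have := Fact.mk hp
  simp only [Set.mem_insert_iff, Set.mem_singleton_iff] at h
  have h7 : 7 ≤ p := by omega
  obtain ⟨n, hn⟩ : ∃ n, p = 2 * n + 1 := (hp.eq_two_or_odd'.resolve_left (by omega))
  have e1 : (p - 1) / 2 = n := by omega
  have e2 : p - 1 = 2 * n := by omega
  have hs : ∀ l : k, Pool.Agent.Lib.MP_be0804_ag.PP.SS n l → IsSupersingularValue p l := by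
    refine fun l hl => ⟨hl.1, hl.2.1, ?_⟩
    rw [e1, e2, ← hl.2.2, Pool.Agent.Lib.MP_be0804_ag.PP.HH]
    congr 2
    simp only [map_neg, map_add, map_one, map_zero]
    ring
  have hc : ∀ f : k[X], cartierManin p f = Pool.Agent.Lib.MP_be0804_ag.PP.CM p n f := fun f => by
    rw [cartierManin, e1]; rfl
  have h0 : Pool.Agent.Lib.MP_be0804_ag.PP.HH n (-11 : k) (-1) 0 ≠ 0 := by
    refine h.elim (Pool.Agent.Lib.MP_be0804_ag.PP.ord_twenty hn) fun h h0 => h.2 ?_
    rw [← CharP.intCast_eq_zero_iff k p, ← eq_intCast (Int.castRingHom k), ← coeff_map, e1, e2,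
      ← h0, Pool.Agent.Lib.MP_be0804_ag.PP.HH]
    congr 1
    simp only [Polynomial.map_pow, Polynomial.map_sub, Polynomial.map_mul, map_X,
      Polynomial.map_ofNat, map_neg, map_ofNat, map_one, map_zero]
    ring
  ext T
  simp only [Set.mem_ofPred_eq, Set.mem_insert_iff, Set.mem_singleton_iff]
  constructor
  · rintro ⟨l₁, l₂, l₃, a, b, c, s₁, s₂, s₃, rfl⟩
    unfold kind
    split_ifs with h1 h2 h3
    · exact Or.inl rfl
    · exact Or.inr (Or.inl rfl)
    · exact absurd (NeverN.result p hp h7 k l₁ l₂ l₃ a b c s₁ s₂ s₃ _ rfl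
        (Or.inl (not_not.1 h2))) h3
    · exact Or.inr (Or.inr rfl)
  · rintro (rfl | rfl | rfl)
    · obtain ⟨l₁, l₂, l₃, a, b, c, s₁, s₂, s₃, d⟩ := OrdinaryCM.result p hp h7 k
      exact ⟨l₁, l₂, l₃, a, b, c, s₁, s₂, s₃, (if_pos d).symm⟩
    · obtain ⟨l₁, l₂, l₃, a, b, c, s₁, s₂, s₃, d, e⟩ :=
        Pool.Agent.Lib.MP_be0804_ag.PP.rank_one hn h7 (by omega) (by omega) h0
      refine ⟨l₁, l₂, l₃, a, b, c, hs _ s₁, hs _ s₂, hs _ s₃, ?_⟩
      rw [hc, kind, if_neg (not_not.2 d), if_pos e]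
    · obtain ⟨l₁, l₂, l₃, a, b, c, s₁, s₂, s₃, d⟩ :=
        Pool.Agent.Lib.MP_be0804_ag.PP.rank_zero (k := k) hn h7 (by omega) (by omega)
      refine ⟨l₁, l₂, l₃, a, b, c, hs _ s₁, hs _ s₂, hs _ s₃, ?_⟩
      rw [hc, d, kind]
      simp

end Pool.Agent.Results.MP_be0804_ag.Complete30
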